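import Pool.Agent.LibQC51.Main

/-!
MP_ebf018_gt, hand-in Classification: the data `(A, G, ξ)` of Hausel's question.

`G` is a connected compact group with maximal torus `T = U(1)^r`, given by its root datum `R` on the
character lattice `ℤ^r`; `A` is a representation of `G`, given by its weights `a`; `ξ` is a central
parameter. If the hyperkähler level set of `T` is nonempty, `T` acts freely on it, and `0` is not a
weight, then `(R, a)` has quiver form: the simple factors are of type `A`, `G` is a product of unitary
groups, modulo the scalars of the unframed components, times a torus `U(1)^s`, and `A` is, up to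
replacing summands by their duals, the representation of a quiver whose framing is twisted by
characters of `U(1)^s`.
-/

set_option autoImplicit false

namespace Pool.Agent.Results.MP_ebf018_gt.Classification

open LibQC51
open scoped Matrix

theorem result {r n : ℕ} {ι : Type} [Finite ι] (R : RootDat r ι) (a : Fin n → Fin r → ℤ)
    (hA : IsRep R a) (ξ : Fin r → ℝ) (hξ : ∀ i, ∑ j, ξ j * (R.coroot i j : ℝ) = 0)
    (hne : ∃ x y, InLevel a ξ x y) (hfree : FreeOn a ξ) (h0 : ∀ k, a k ≠ 0) :
    Nonempty (QForm R a) :=
  LibQC51.main R a hA ξ hξ hne hfree h0

end Pool.Agent.Results.MP_ebf018_gt.Classification
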