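import Pool.Agent.LibHK51.Rot

/-!
# Hausel's isomorphism for `(A, G, ξ)` implies Kirwan surjectivity for `T^*A////G`

`HM = H(T^*A////G)`, `HT D = H(T^*A////T)^W / Ann(product of the roots)`; the isomorphism is an
arbitrary ring isomorphism, not assumed compatible with the Kirwan maps. `R : RotData D HM HY` are the
maps given by the submanifold `Y = μ_G⁻¹(ξ) / T_ℂ` of `T^*A////T = μ_T⁻¹(ξ) / T_ℂ` (complex moment
maps, after hyperkähler rotation), which is a `G_ℂ/T_ℂ`-bundle over `T^*A////G`.
-/

namespace Pool.Agent.Results.MP_ebf018_gt.IsoImpliesKirwan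

open LibHK51

theorem result {W : Type} [Group W] [Fintype W] {r n : ℕ} (D : Datum W r n)
    {HM HY : Type} [CommRing HM] [Algebra ℚ HM] [FiniteDimensional ℚ HM] [CommRing HY]
    (R : RotData D HM HY) (Φ : HM ≃+* HT D) : Function.Surjective R.kM :=
  R.surj_of_iso Φ

end Pool.Agent.Results.MP_ebf018_gt.IsoImpliesKirwan
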