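import Pool.Agent.LibHK51.Front

/-!
# Kirwan surjectivity is equivalent to Hausel's abelianization isomorphism

`D` is the combinatorial datum of `(A, G, T, ξ)`, `G` the localisation data of `M = T^*A////G` with
the circle scaling the fibres: `G.H = H_{U(1)}(M)` (even cohomology, graded by `𝒜`), `G.B q = H(F_q)`
for the fixed components `F_q`. `G.HM = H / (u)` is `H(M)` (equivariant formality), `G.kM` its Kirwan map,
`HT D` is `H(T^*A////T)^W / Ann(product of the roots)` (with the ring of Konno and Hausel-Sturmfels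
for `H(T^*A////T)`) and `kTA D` the Kirwan map onto it.
-/

namespace Pool.Agent.Results.MP_ebf018_gt.KirwanAbelianization

open LibHK51

theorem result {W : Type} [Group W] [Fintype W] {r n : ℕ} (D : Datum W r n)
    (G : LocData D) (hG : G.Valid)
    (𝒜 : ℕ → Submodule ℚ G.H) [GradedAlgebra 𝒜] (h𝒜 : G.Graded 𝒜) :
    Function.Surjective G.kM ↔ ∃ Φ : G.HM ≃+* HT D, ∀ f, Φ (G.kM f) = kTA D f :=
  G.main hG 𝒜 h𝒜

end Pool.Agent.Results.MP_ebf018_gt.KirwanAbelianization
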